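import Pool.Agent.Lib.H98TF.Gen

/-!
# H8F, file F5: the functor for 2-factors with cycles of length at least five

`Exc G W`: `W` has two elements and `V - W` is independent. If `G` is 2-connected, it is then `K_(2,m)` with the small
side `W`, perhaps with the edge of `W`. `X5 G W`: `W` is disconnected and, if `G` is 2-connected, `W` is neither covered
nor exceptional.
-/

set_option autoImplicit false
set_option linter.unusedSectionVars false

namespace H8F

open Finset H98P H98Z H98M H63F H30F H85TF H98TF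

variable {V : Type*} [Fintype V] [DecidableEq V]

/-- `A` is covered by pairwise disjoint cycles of `E` of length at least five. -/
def Cov5 (E : Finset (Sym2 V)) (A : Finset V) : Prop :=
  ∃ F ⊆ E, (∀ v, dg F v = 0 ∨ dg F v = 2) ∧
    (∀ x y z : V, s(x, y) ∈ F → s(y, z) ∈ F → s(x, z) ∉ F) ∧
    (∀ x y z w : V, x ≠ z → y ≠ w → s(x, y) ∈ F → s(y, z) ∈ F → s(z, w) ∈ F → s(w, x) ∉ F) ∧
    ∀ v ∈ A, dg F v = 2

theorem cov5_sub {E : Finset (Sym2 V)} {A B : Finset V} (h : A ⊆ B) (hB : Cov5 E B) : Cov5 E A := by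
  obtain ⟨F, h1, h2, h3, h4, h5⟩ := hB
  exact ⟨F, h1, h2, h3, h4, fun v hv => h5 v (h hv)⟩

theorem cov5_edges {E E' : Finset (Sym2 V)} {A : Finset V} (h : E ⊆ E') (hA : Cov5 E A) : Cov5 E' A := by
  obtain ⟨F, h1, h2⟩ := hA
  exact ⟨F, h1.trans h, h2⟩

theorem cov5_empty (E : Finset (Sym2 V)) : Cov5 E ∅ :=
  ⟨∅, empty_subset _, fun v => Or.inl (by simp [dg]), fun x y z h => absurd h (notMem_empty _),
    fun x y z w _ _ h => absurd h (notMem_empty _), fun v hv => absurd hv (notMem_empty v)⟩

/-- `W` has two elements and its complement is independent. -/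
def Exc (G : Finset (Sym2 V)) (W : Finset V) : Prop :=
  W.card = 2 ∧ ∀ x y, x ∉ W → y ∉ W → s(x, y) ∉ G

/-- The functor. -/
def X5 (G : Finset (Sym2 V)) (W : Finset V) : Prop :=
  Disc W G ∧ (TC G → ¬ Cov5 G W ∧ ¬ Exc G W)

theorem swap5 {F : Finset (Sym2 V)} {x y : V} (h : s(x, y) ∈ F) : s(y, x) ∈ F := by
  rw [Sym2.eq_swap]
  exact h

theorem notMem_diag {G : Finset (Sym2 V)} (hG : G ⊆ LW univ) (x : V) : s(x, x) ∉ G := by
  intro h
  have h1 := hG h
  unfold LW at h1
  exact (mem_filter.1 h1).2 (by simp)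

/-- A vertex outside an exceptional pair is joined to both elements of the pair. -/
theorem exc_adj (h3 : 3 ≤ Fintype.card V) {G : Finset (Sym2 V)} (hT : TC G) {c1 c2 : V}
    (h : ∀ x y, x ∉ ({c1, c2} : Finset V) → y ∉ ({c1, c2} : Finset V) → s(x, y) ∉ G) {u : V}
    (hu : u ∉ ({c1, c2} : Finset V)) : s(u, c1) ∈ G := by
  by_contra hcon
  have hu1 : u ≠ c1 := fun e => hu (by simp [e])
  have hu2 : u ≠ c2 := fun e => hu (by simp [e])
  refine hT.2 c2 ⟨{u}, (univ.erase c2).erase u, singleton_nonempty u, ?_, ?_, ?_, ?_⟩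
  · rw [← card_pos, card_erase_of_mem (mem_erase.2 ⟨hu2, mem_univ _⟩),
      card_erase_of_mem (mem_univ _), card_univ]
    omega
  · rw [disjoint_singleton_left]
    exact notMem_erase _ _
  · ext x
    simp only [mem_union, mem_singleton, mem_erase, mem_univ, and_true]
    constructor
    · rintro (rfl | h1)
      · exact hu2
      · exact h1.2
    · intro h1
      by_cases h2 : x = u
      · exact Or.inl h2
      · exact Or.inr ⟨h2, h1⟩
  · intro x hx y hy hxy
    rw [mem_singleton] at hx
    subst hx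
    simp only [mem_erase, mem_univ, and_true] at hy
    by_cases h1 : y = c1
    · exact hcon (h1 ▸ hxy)
    · exact h x y hu (by simp [h1, hy.2]) hxy

/-- The edges of a cycle of length five. -/
def cyc5 (f : Fin 5 → V) : Finset (Sym2 V) := univ.image fun i : Fin 5 => s(f i, f (i + 1))

theorem mem_cyc5 {f : Fin 5 → V} {x y : V} (h : s(x, y) ∈ cyc5 f) :
    ∃ i j : Fin 5, x = f i ∧ y = f j ∧ (j = i + 1 ∨ i = j + 1) := by
  unfold cyc5 at h
  obtain ⟨i, -, hi⟩ := mem_image.1 h
  rw [Sym2.eq_iff] at hi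
  rcases hi with ⟨rfl, rfl⟩ | ⟨rfl, rfl⟩
  · exact ⟨i, i + 1, rfl, rfl, Or.inl rfl⟩
  · exact ⟨i + 1, i, rfl, rfl, Or.inr rfl⟩

theorem dg_cyc5 {f : Fin 5 → V} (hf : Function.Injective f) (i : Fin 5) : dg (cyc5 f) (f i) = 2 := by
  have h1 : (cyc5 f).filter (fun e => f i ∈ e) = {s(f i, f (i + 1)), s(f (i - 1), f i)} := by
    ext e
    simp only [mem_filter, mem_insert, mem_singleton, cyc5, mem_image, mem_univ, true_and]
    constructor
    · rintro ⟨⟨j, rfl⟩, h⟩
      rcases Sym2.mem_iff.1 h with h | h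
      · rw [hf h]
        exact Or.inl rfl
      · have h2 : j = i - 1 := by rw [hf h]; simp
        rw [h2]
        right
        rw [sub_add_cancel]
    · rintro (rfl | rfl)
      · exact ⟨⟨i, rfl⟩, by simp⟩
      · exact ⟨⟨i - 1, by rw [sub_add_cancel]⟩, by simp⟩
  unfold dg
  rw [h1, card_pair]
  intro h
  rw [Sym2.eq_iff] at h
  have a1 : ∀ i : Fin 5, i ≠ i - 1 := by decide
  have a2 : ∀ i : Fin 5, i + 1 ≠ i - 1 := by decide
  rcases h with h | h
  · exact a1 i (hf h.1)
  · exact a2 i (hf h.2)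

theorem dg_cyc5' {f : Fin 5 → V} {v : V} (hv : ∀ i, v ≠ f i) : dg (cyc5 f) v = 0 := by
  unfold dg
  rw [card_eq_zero, filter_eq_empty_iff]
  intro e he h
  unfold cyc5 at he
  obtain ⟨j, -, rfl⟩ := mem_image.1 he
  rcases Sym2.mem_iff.1 h with h | h
  · exact hv _ h
  · exact hv _ h

/-- A cycle of length five covers its vertices. -/
theorem cov5_cyc {G : Finset (Sym2 V)} {f : Fin 5 → V} (hf : Function.Injective f) (h : cyc5 f ⊆ G)
    {A : Finset V} (hA : ∀ v ∈ A, ∃ i, v = f i) : Cov5 G A := by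
  refine ⟨cyc5 f, h, ?_, ?_, ?_, ?_⟩
  · intro v
    by_cases h1 : ∃ i, v = f i
    · obtain ⟨i, rfl⟩ := h1
      exact Or.inr (dg_cyc5 hf i)
    · push Not at h1
      exact Or.inl (dg_cyc5' h1)
  · intro x y z h1 h2 h3
    obtain ⟨i, j, rfl, rfl, hij⟩ := mem_cyc5 h1
    obtain ⟨j', k, hj, rfl, hjk⟩ := mem_cyc5 h2
    obtain ⟨i', k', hi, hk, hik⟩ := mem_cyc5 h3
    obtain rfl := hf hj
    obtain rfl := hf hi
    obtain rfl := hf hk
    revert hij hjk hik
    clear hj hi hk h1 h2 h3
    revert i j k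
    decide
  · intro x y z w hxz hyw h1 h2 h3 h4
    obtain ⟨i, j, rfl, rfl, hij⟩ := mem_cyc5 h1
    obtain ⟨j', k, hj, rfl, hjk⟩ := mem_cyc5 h2
    obtain ⟨k', l, hk, rfl, hkl⟩ := mem_cyc5 h3
    obtain ⟨l', i', hl, hi, hli⟩ := mem_cyc5 h4
    obtain rfl := hf hj
    obtain rfl := hf hk
    obtain rfl := hf hl
    obtain rfl := hf hi
    have hik : i ≠ k := fun e => hxz (by rw [e])
    have hjl : j ≠ l := fun e => hyw (by rw [e])
    revert hij hjk hkl hli hik hjl
    clear hj hi hk hl h1 h2 h3 h4 hxz hyw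
    revert i j k l
    decide
  · intro v hv
    obtain ⟨i, rfl⟩ := hA v hv
    exact dg_cyc5 hf i

/-- An exceptional pair of `G` is covered in every larger graph with an edge outside the pair. -/
theorem exc_cov (h5 : 5 ≤ Fintype.card V) {G G' : Finset (Sym2 V)} (hG' : G' ⊆ LW univ) (hGG : G ⊆ G')
    (hT : TC G) {W : Finset V} (hW : Exc G W) {x y : V} (hx : x ∉ W) (hy : y ∉ W) (hxy : s(x, y) ∈ G') :
    Cov5 G' W := by
  obtain ⟨hc, hi⟩ := hW
  obtain ⟨c1, c2, hcc, rfl⟩ := card_eq_two.1 hc
  have hxy' : x ≠ y := fun e => notMem_diag hG' y (by rw [e] at hxy; exact hxy)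
  obtain ⟨z, hz⟩ : ∃ z, z ∉ ({c1, c2, x, y} : Finset V) := by
    by_contra hcon
    push Not at hcon
    have h1 : (univ : Finset V) ⊆ {c1, c2, x, y} := fun z _ => hcon z
    have h2 := card_le_card h1
    rw [card_univ] at h2
    have h3 : ({c1, c2, x, y} : Finset V).card ≤ 4 := card_le_four
    omega
  simp only [mem_insert, mem_singleton, not_or] at hz hx hy
  have hadj1 : ∀ u, u ≠ c1 → u ≠ c2 → s(u, c1) ∈ G' := fun u h1 h2 =>
    hGG (exc_adj (by omega) hT hi (by simp [h1, h2]))
  have hadj2 : ∀ u, u ≠ c1 → u ≠ c2 → s(u, c2) ∈ G' := fun u h1 h2 =>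
    hGG (exc_adj (c1 := c2) (c2 := c1) (by omega) hT
      (fun a b ha hb => hi a b (by rw [pair_comm]; exact ha) (by rw [pair_comm]; exact hb))
      (by simp [h1, h2]))
  -- the cycle `c1 x y c2 z`
  have hf : Function.Injective (![c1, x, y, c2, z] : Fin 5 → V) := by
    have h1 := hz.1
    have h2 := hz.2.1
    have h3 := hz.2.2.1
    have h4 := hz.2.2.2
    intro i j hij
    fin_cases i <;> fin_cases j <;> simp_all
  refine cov5_cyc hf ?_ ?_
  · intro e he
    unfold cyc5 at he
    obtain ⟨i, -, rfl⟩ := mem_image.1 he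
    fin_cases i
    · exact swap5 (hadj1 x hx.1 hx.2)
    · exact hxy
    · exact hadj2 y hy.1 hy.2
    · exact swap5 (hadj2 z hz.1 hz.2.1)
    · exact hadj1 z hz.1 hz.2.1
  · intro v hv
    rw [mem_insert, mem_singleton] at hv
    rcases hv with rfl | rfl
    · exact ⟨0, rfl⟩
    · exact ⟨3, rfl⟩

theorem x5_anti (h5 : 5 ≤ Fintype.card V) {G G' : Finset (Sym2 V)} (hGG : G ⊆ G') (hG' : G' ⊆ LW univ)
    {W : Finset V} (hW : X5 G' W) : X5 G W := by
  refine ⟨H85TF.disc_anti hGG hW.1, fun hT => ?_⟩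
  have hT' := tc_mono hGG hT
  obtain ⟨h1, h2⟩ := hW.2 hT'
  refine ⟨fun h => h1 (cov5_edges hGG h), fun h => ?_⟩
  have h3 : ∃ x y, x ∉ W ∧ y ∉ W ∧ s(x, y) ∈ G' := by
    by_contra hcon
    push Not at hcon
    exact h2 ⟨h.1, hcon⟩
  obtain ⟨x, y, hx, hy, hxy⟩ := h3
  exact h1 (exc_cov h5 hG' hGG hT h hx hy hxy)

theorem x5_disc {G : Finset (Sym2 V)} {W : Finset V} (hW : X5 G W) : Disc W G := hW.1

/-- No vertex outside an exceptional pair is on a cycle of length at least five. -/
theorem exc_not_cov {G : Finset (Sym2 V)} (hG : G ⊆ LW univ) {c1 c2 : V}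
    (h : ∀ x y, x ∉ ({c1, c2} : Finset V) → y ∉ ({c1, c2} : Finset V) → s(x, y) ∉ G) {v : V}
    (hv : v ∉ ({c1, c2} : Finset V)) : ¬ Cov5 G {v} := by
  rintro ⟨F, hF, hdeg, ht, hq, hA⟩
  have hv2 : dg F v = 2 := hA v (mem_singleton_self v)
  have key : ∀ u, u ∉ ({c1, c2} : Finset V) → dg F u = 2 → s(u, c1) ∈ F ∧ s(u, c2) ∈ F := by
    intro u hu h2
    have h3 : (F.filter fun e => u ∈ e) ⊆ {s(u, c1), s(u, c2)} := by
      intro e he
      rw [mem_filter] at he
      obtain ⟨w, rfl⟩ := he.2
      have h4 : w ∈ ({c1, c2} : Finset V) := by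
        by_contra h5
        exact h u w hu h5 (hF he.1)
      rw [mem_insert, mem_singleton] at h4
      rcases h4 with rfl | rfl
      · simp
      · simp
    have h4 : (F.filter fun e => u ∈ e).card = 2 := h2
    have h5 : ({s(u, c1), s(u, c2)} : Finset (Sym2 V)).card ≤ 2 := card_le_two
    have h6 := eq_of_subset_of_card_le h3 (by omega)
    constructor
    · have h7 : s(u, c1) ∈ F.filter fun e => u ∈ e := by rw [h6]; simp
      exact (mem_filter.1 h7).1
    · have h7 : s(u, c2) ∈ F.filter fun e => u ∈ e := by rw [h6]; simp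
      exact (mem_filter.1 h7).1
  obtain ⟨h1, h2⟩ := key v hv hv2
  simp only [mem_insert, mem_singleton, not_or] at hv
  -- the other edge at `c1`
  have hc1 : dg F c1 = 2 := by
    rcases hdeg c1 with h3 | h3
    · have := dg_pos' h1
      omega
    · exact h3
  obtain ⟨w, hw, hwv⟩ : ∃ w, s(c1, w) ∈ F ∧ w ≠ v := by
    unfold dg at hc1
    obtain ⟨e, f, hef, h3⟩ := card_eq_two.1 hc1
    have he : e ∈ F.filter fun e => c1 ∈ e := by rw [h3]; simp
    have hf : f ∈ F.filter fun e => c1 ∈ e := by rw [h3]; simp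
    rw [mem_filter] at he hf
    obtain ⟨y, rfl⟩ := he.2
    obtain ⟨z, rfl⟩ := hf.2
    by_cases hy : y = v
    · refine ⟨z, hf.1, fun hz => hef ?_⟩
      rw [hy, hz]
    · exact ⟨y, he.1, hy⟩
  have hcw : c1 ≠ w := fun e => notMem_diag hG w (hF (by rw [e] at hw; exact hw))
  by_cases hw2 : w = c2
  · subst hw2
    exact ht v c1 w h1 hw h2
  · have hwn : w ∉ ({c1, c2} : Finset V) := by simp [hcw.symm, hw2]
    have hw2' : dg F w = 2 := by
      rcases hdeg w with h3 | h3
      · have := dg_pos' hw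
        omega
      · exact h3
    have h3 := (key w hwn hw2').2
    refine hq v c1 w c2 hwv.symm ?_ h1 hw h3 (swap5 h2)
    rintro rfl
    -- `c1 = c2`: the vertex `v` has only one possible neighbour
    have h4 : (F.filter fun e => v ∈ e) ⊆ {s(v, c1)} := by
      intro e he
      rw [mem_filter] at he
      obtain ⟨w, rfl⟩ := he.2
      have h4 : w ∈ ({c1, c1} : Finset V) := by
        by_contra h5
        exact h v w (by simp [hv]) h5 (hF he.1)
      simp only [mem_insert, mem_singleton, or_self] at h4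
      rw [h4]
      simp
    have h5 := card_le_card h4
    rw [card_singleton] at h5
    unfold dg at hv2
    omega

/-- The functor is acyclic when there is no 2-factor with cycles of length at least five. -/
theorem ac_x5 (h5 : 5 ≤ Fintype.card V) {G : Finset (Sym2 V)} (hG : G ⊆ LW univ)
    (E : TC G → ∀ (A : Finset V) (b d : V) (U : Finset V), Cov5 G (insert b A) → Cov5 G (insert d A) →
      b ∈ U → d ∈ U → ¬ Disc U G → (∀ u ∈ U, u ≠ b → u ≠ d → ¬ Cov5 G (insert u A)) →
      Cov5 G (insert b (insert d A)))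
    (hclass : TC G → ∀ v, ¬ Cov5 G {v} → ∃ c1 c2 : V, c1 ≠ c2 ∧
      ∀ x y, x ≠ c1 → x ≠ c2 → y ≠ c1 → y ≠ c2 → s(x, y) ∉ G)
    (hgood : ¬ (TC G ∧ Cov5 G univ)) : AC (Ch (X5 G)) := by
  by_cases hT : TC G
  · have hV : ¬ Cov5 G univ := fun h => hgood ⟨hT, h⟩
    by_cases hv : ∀ v, Cov5 G {v}
    · have hne : ∀ W, ¬ Exc G W := by
        rintro W ⟨hc, hi⟩
        obtain ⟨c1, c2, hcc, rfl⟩ := card_eq_two.1 hc
        obtain ⟨z, hz⟩ : ∃ z, z ∉ ({c1, c2} : Finset V) := by
          by_contra hcon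
          push Not at hcon
          have h1 : (univ : Finset V) ⊆ {c1, c2} := fun z _ => hcon z
          have h2 := card_le_card h1
          rw [card_univ, hc] at h2
          omega
        exact exc_not_cov hG hi hz (hv z)
      refine ac_congr (fun t => ?_) (H96TF.ac_X G (Cov5 G) (fun A B h => cov5_sub h) (cov5_empty G) hv
        (E hT) hV)
      constructor
      · exact ch_mono fun W hW => ⟨hW.2, fun _ => ⟨hW.1, hne W⟩⟩
      · exact ch_mono fun W hW => ⟨(hW.2 hT).1, hW.1⟩
    · push Not at hv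
      obtain ⟨v, hv⟩ := hv
      obtain ⟨c1, c2, hcc, hi⟩ := hclass hT v hv
      have hi' : ∀ x y, x ∉ ({c1, c2} : Finset V) → y ∉ ({c1, c2} : Finset V) → s(x, y) ∉ G := by
        intro x y hx hy
        simp only [mem_insert, mem_singleton, not_or] at hx hy
        exact hi x y hx.1 hx.2 hy.1 hy.2
      have hadj1 : ∀ u, u ∉ ({c1, c2} : Finset V) → s(u, c1) ∈ G := fun u hu =>
        exc_adj (by omega) hT hi' hu
      have hadj2 : ∀ u, u ∉ ({c1, c2} : Finset V) → s(u, c2) ∈ G := fun u hu =>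
        exc_adj (c1 := c2) (c2 := c1) (by omega) hT
          (fun a b ha hb => hi' a b (by rw [pair_comm]; exact ha) (by rw [pair_comm]; exact hb))
          (by rw [pair_comm]; exact hu)
      have hTc : (univ \ ({c1, c2} : Finset V)).card = Fintype.card V - 2 := by
        rw [card_sdiff_of_subset (subset_univ _), card_univ, card_pair hcc]
      refine ac_ch_cone (a := univ \ ({c1, c2} : Finset V)) ⟨?_, fun _ => ⟨?_, ?_⟩⟩ ?_
      · -- disconnected
        obtain ⟨z, hz⟩ : (univ \ ({c1, c2} : Finset V)).Nonempty := by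
          rw [← card_pos]
          omega
        refine ⟨{z}, (univ \ ({c1, c2} : Finset V)).erase z, singleton_nonempty z, ?_, ?_, ?_, ?_⟩
        · rw [← card_pos, card_erase_of_mem hz]
          omega
        · rw [disjoint_singleton_left]
          exact notMem_erase _ _
        · rw [← insert_eq, insert_erase hz]
        · intro x hx y hy
          rw [mem_singleton] at hx
          subst hx
          exact hi' x y (mem_sdiff.1 hz).2 (mem_sdiff.1 (mem_of_mem_erase hy)).2
      · intro h
        obtain ⟨z, hz⟩ : (univ \ ({c1, c2} : Finset V)).Nonempty := by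
          rw [← card_pos]
          omega
        exact exc_not_cov hG hi' (mem_sdiff.1 hz).2 (cov5_sub (singleton_subset_iff.2 hz) h)
      · intro h
        have := h.1
        omega
      · intro W hW
        right
        have key : ∀ p q : V, p ≠ q → (∀ u, u ∉ ({c1, c2} : Finset V) → s(u, p) ∈ G) →
            (∀ u, u ∉ ({c1, c2} : Finset V) → s(u, q) ∈ G) → ({p, q} : Finset V) = {c1, c2} →
            p ∉ W := by
          intro p q hpq hp hq hpq' hpW
          obtain ⟨hd, hW2⟩ := hW
          obtain ⟨hW3, hW4⟩ := hW2 hT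
          have main : ∀ C D : Finset V, Disjoint C D → D.Nonempty → C ∪ D = W → p ∈ C →
              (∀ x ∈ C, ∀ y ∈ D, s(x, y) ∉ G) → False := by
            intro C D hdis hD hCD hpC hno
            have hout : ∀ y, y ≠ p → y ≠ q → y ∉ ({c1, c2} : Finset V) := by
              intro y h1 h2
              rw [← hpq']
              simp [h1, h2]
            have hD1 : ∀ y ∈ D, y = q := by
              intro y hy
              by_contra hyq
              have hyp : y ≠ p := by
                rintro rfl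
                exact disjoint_left.1 hdis hpC hy
              exact hno p hpC y hy (swap5 (hp y (hout y hyp hyq)))
            obtain ⟨y, hy⟩ := hD
            have hqD : q ∈ D := hD1 y hy ▸ hy
            have hC1 : ∀ x ∈ C, x = p := by
              intro x hx
              by_contra hxp
              have hxq : x ≠ q := by
                rintro rfl
                exact disjoint_left.1 hdis hx hqD
              exact hno x hx q hqD (hq x (hout x hxp hxq))
            have hWe : W = {c1, c2} := by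
              rw [← hpq', ← hCD]
              ext t
              simp only [mem_union, mem_insert, mem_singleton]
              constructor
              · rintro (h | h)
                · exact Or.inl (hC1 t h)
                · exact Or.inr (hD1 t h)
              · rintro (rfl | rfl)
                · exact Or.inl hpC
                · exact Or.inr hqD
            refine hW4 ?_
            rw [hWe]
            exact ⟨card_pair hcc, hi'⟩
          obtain ⟨C, D, hC, hD, hdis, hCD, hno⟩ := hd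
          rw [← hCD, mem_union] at hpW
          rcases hpW with h | h
          · exact main C D hdis hD hCD h hno
          · exact main D C hdis.symm hC (by rw [union_comm]; exact hCD) h
              (fun x hx y hy hxy => hno y hy x hx (swap5 hxy))
        intro x hx
        rw [mem_sdiff]
        refine ⟨mem_univ _, fun h => ?_⟩
        rw [mem_insert, mem_singleton] at h
        rcases h with rfl | rfl
        · exact key x c2 hcc hadj1 hadj2 rfl hx
        · exact key x c1 hcc.symm hadj2 hadj1 (pair_comm _ _) hx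
  · refine ac_congr (fun t => ?_) (H30D.ac_disc G (by
      by_contra hcon
      rw [not_or, not_exists] at hcon
      exact hT hcon))
    constructor
    · exact ch_mono fun W hW => ⟨hW, fun h => absurd h hT⟩
    · exact ch_mono fun W hW => hW.1

/-- `TC` and `Cov5 univ` are inherited by larger sets. -/
theorem good_mono {G G' : Finset (Sym2 V)} (h : G ⊆ G') (hG : TC G ∧ Cov5 G univ) : TC G' ∧ Cov5 G' univ :=
  ⟨tc_mono h hG.1, cov5_edges h hG.2⟩

/-- Plane 2-factors with cycles of length at least five (abstract form, not exact). -/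
theorem plane_five {cross : Sym2 V → Sym2 V → Prop} (hsymm : ∀ e f, cross e f → cross f e)
    (hHD : ∀ W, HD cross W) (h5 : 5 ≤ Fintype.card V)
    (E : ∀ G : Finset (Sym2 V), G ⊆ LW univ → TC G → ∀ (A : Finset V) (b d : V) (U : Finset V),
      Cov5 G (insert b A) → Cov5 G (insert d A) → b ∈ U → d ∈ U → ¬ Disc U G →
      (∀ u ∈ U, u ≠ b → u ≠ d → ¬ Cov5 G (insert u A)) → Cov5 G (insert b (insert d A)))
    (hclass : ∀ G : Finset (Sym2 V), G ⊆ LW univ → TC G → ∀ v, ¬ Cov5 G {v} → ∃ c1 c2 : V, c1 ≠ c2 ∧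
      ∀ x y, x ≠ c1 → x ≠ c2 → y ≠ c1 → y ≠ c2 → s(x, y) ∉ G) :
    ∃ G : Finset (Sym2 V), G ⊆ LW univ ∧ Plane cross G ∧ TC G ∧ Cov5 G univ := by
  obtain ⟨x, y, hxy⟩ := Fintype.exists_pair_of_one_lt_card (α := V) (by omega)
  obtain ⟨G, -, hGL, hGp, hac⟩ := functor hsymm hHD ⟨x, y, hxy⟩ X5
    (fun G G' hGG hG' _ _ W hW => x5_anti h5 hGG hG' hW) (fun G W _ _ _ h => x5_disc h)
  by_cases hg : TC G ∧ Cov5 G univ
  · exact ⟨G, hGL, hGp, hg⟩
  · exact absurd (ac_x5 h5 hGL (E G hGL) (hclass G hGL) hg) hac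

end H8F
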