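import Pool.Agent.Lib.H30F.BP

/-!
# H8F: every simple drawing of `K_n` has a plane 2-factor. Definitions.

`Cov G A`: the vertex set `A` is covered by pairwise disjoint cycles with edges in `G`. `Via G I b d`: there is a walk
from `b` to `d` all of whose inner vertices satisfy `I`. `Exch G M K`: the exchange property (P1). `TC G`: `G` is
2-connected. See PROOF.md.
-/

set_option autoImplicit false
set_option linter.unusedSectionVars false

namespace H8F

open Finset H98P H98Z H98M H63F H30F

variable {V : Type*} [Fintype V] [DecidableEq V]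

/-- The degree of `v` in the edge set `F`. -/
def dg (F : Finset (Sym2 V)) (v : V) : ℕ := (F.filter fun e => v ∈ e).card

/-- `A` is covered by pairwise disjoint cycles with edges in `G`. -/
def Cov (G : Finset (Sym2 V)) (A : Finset V) : Prop :=
  ∃ F ⊆ G, (∀ v, dg F v = 0 ∨ dg F v = 2) ∧ ∀ v ∈ A, dg F v = 2

/-- There is a walk from `b` to `d` in `G` (with at least one edge) whose inner vertices satisfy `I`. -/
inductive Via (G : Finset (Sym2 V)) (I : V → Prop) : V → V → Prop
  | edge {b d : V} : s(b, d) ∈ G → Via G I b d
  | step {b c d : V} : s(b, c) ∈ G → I c → Via G I c d → Via G I b d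

/-- The exchange property (P1) of a family `K` of subsets of `M`. -/
def Exch (G : Finset (Sym2 V)) (M : Finset V) (K : Finset V → Prop) : Prop :=
  ∀ (A : Finset V) (b d : V), A ⊆ M → b ∈ M → d ∈ M → b ∉ A → d ∉ A → b ≠ d →
    K (insert b A) → K (insert d A) →
    Via G (fun x => x ∈ M ∧ x ∉ A ∧ ¬ K (insert x A)) b d → K (insert b (insert d A))

/-- `G` is 2-connected. -/
def TC (G : Finset (Sym2 V)) : Prop :=
  ¬ Disc univ G ∧ ∀ z : V, ¬ Disc (univ.erase z) G

end H8F
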