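import Pool.Agent.Lib.H30F.BP
import Pool.Agent.Lib.H85TF.P2
import Pool.Agent.Lib.H96TF.X
import Pool.Agent.Lib.H30D.C4

/-!
# H8F, file Abs: the abstract plane 2-factor theorem

From (P1) `H85TF.exch_set`, (P2) `H85TF.cov_vertex`, the tree lemma and the removal of the connected sets `H96TF.ac_X`, the
disconnected sets of a graph which is not 2-connected `H30D.ac_disc`, and the functor theorem `H30F.functor`.
-/

set_option autoImplicit false
set_option linter.unusedSectionVars false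

namespace H8F

open Finset H98P H98Z H98M H63F H30F

variable {V : Type*} [Fintype V] [DecidableEq V]

theorem disc_anti' {G G' : Finset (Sym2 V)} (h : G ⊆ G') {W : Finset V} (hW : Disc W G') : Disc W G := by
  obtain ⟨C, D, h1, h2, h3, h4, h5⟩ := hW
  exact ⟨C, D, h1, h2, h3, h4, fun x hx y hy hxy => h5 x hx y hy (h hxy)⟩

/-- `G` is not 2-connected. -/
def NTC (G : Finset (Sym2 V)) : Prop := Disc univ G ∨ ∃ z : V, Disc (univ.erase z) G

theorem ntc_anti {G G' : Finset (Sym2 V)} (h : G ⊆ G') (hG : NTC G') : NTC G := by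
  rcases hG with h1 | ⟨z, h1⟩
  · exact Or.inl (disc_anti' h h1)
  · exact Or.inr ⟨z, disc_anti' h h1⟩

/-- Every simple drawing of a complete graph with at least three vertices has a plane 2-connected subdrawing with a
2-factor (abstract form). -/
theorem plane_two_factor' {cross : Sym2 V → Sym2 V → Prop} (hsymm : ∀ e f, cross e f → cross f e)
    (hHD : ∀ W, HD cross W) (hV : 3 ≤ Fintype.card V) :
    ∃ G : Finset (Sym2 V), G ⊆ LW univ ∧ Plane cross G ∧ ¬ NTC G ∧ H85TF.Cov G univ := by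
  obtain ⟨x, y, hxy⟩ : ∃ x y : V, x ≠ y := Fintype.exists_pair_of_one_lt_card (by omega)
  obtain ⟨G, -, hG1, hG2, hG3⟩ := functor hsymm hHD ⟨x, y, hxy⟩
    (fun G W => Disc W G ∧ (¬ NTC G → ¬ H85TF.Cov G W))
    (fun G G' h _ _ _ W hW => ⟨disc_anti' h hW.1, fun h1 h2 =>
      hW.2 (fun h3 => h1 (ntc_anti h h3)) (H85TF.cov_edges h h2)⟩)
    (fun G W _ _ _ hW => hW.1)
  have hE : ∀ e ∈ G, ¬ e.IsDiag := by
    intro e he
    have h1 := hG1 he
    unfold LW at h1
    exact (mem_filter.1 h1).2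
  refine ⟨G, hG1, hG2, ?_⟩
  by_cases hT : NTC G
  · exfalso
    refine hG3 (ac_congr (fun c => ?_) (H30D.ac_disc G hT))
    constructor
    · exact ch_mono fun W hW => ⟨hW, fun h => absurd hT h⟩
    · exact ch_mono fun W hW => hW.1
  · refine ⟨hT, ?_⟩
    by_contra hc
    have hT1 : ¬ Disc univ G := fun h => hT (Or.inl h)
    have hT2 : ∀ z, ¬ Disc (univ.erase z) G := fun z h => hT (Or.inr ⟨z, h⟩)
    refine hG3 (ac_congr (fun c => ?_) (H96TF.ac_X G (H85TF.Cov G) (fun A B h => H85TF.cov_sub h)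
      (H85TF.cov_empty G) (H85TF.cov_vertex hE hV hT1 hT2)
      (fun A b d U hb hd hbU hdU hU hin => H85TF.exch_set hE hb hd hbU hdU hU hin) hc))
    constructor
    · exact ch_mono fun W hW => ⟨hW.2, fun _ => hW.1⟩
    · exact ch_mono fun W hW => ⟨hW.2 hT, hW.1⟩

end H8F
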