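import Pool.Agent.Lib.H8F.Def

/-!
# H8F, file AddMax: adding a maximal element to a poset
-/

set_option autoImplicit false
set_option linter.unusedSectionVars false

namespace H8F

open Finset H98P H98Z H98M H63F H30F

variable {V : Type*} [Fintype V] [DecidableEq V]

/-- REMOVAL of a maximal element `m` of the poset `P`: if the part below `m` is acyclic and `P - m` is acyclic, then `P` is
acyclic (`ac_union` for `Ch (P - m)` and the cone over the part below `m`). -/
theorem ac_add_max {α : Type*} [PartialOrder α] [Fintype α] [DecidableEq α] {P : α → Prop} {m : α} (hm : P m)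
    (hmax : ∀ x, P x → ¬ m < x) (h1 : AC (Ch fun x => P x ∧ x < m)) (h2 : AC (Ch fun x => P x ∧ x ≠ m)) :
    AC (Ch P) := by
  sorry

end H8F
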