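import Pool.Agent.Lib.H8F.Def

/-!
# H8F, file Cut: the disconnected sets of a graph which is not 2-connected
-/

set_option autoImplicit false
set_option linter.unusedSectionVars false

namespace H8F

open Finset H98P H98Z H98M H63F H30F

variable {V : Type*} [Fintype V] [DecidableEq V]

/-- `G` disconnected: `univ` is the top. `G` connected with a cut vertex `z`: see the lemma for X1, X2 in our libraries. -/
theorem ac_disc {G : Finset (Sym2 V)} (hG : G ⊆ LW univ) (h : ¬ TC G) :
    AC (Ch fun W : Finset V => Disc W G) := by
  sorry

end H8F
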