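import Pool.Agent.Lib.H8F.F5
import Pool.Agent.Lib.H32L5.D
import Pool.Agent.Lib.H63T.Glue
import Pool.Agent.Lib.H98TF.N

/-!
# H8F, file Ex5: plane 2-factors with cycles of length at least five, exactly `2n - 3` edges (abstract form)

The exchange property for `Cov5` is a hypothesis.
-/

set_option autoImplicit false

set_option linter.unusedSectionVars false

namespace H8F

open Finset H98P H98Z H63F H30F H98M H56V H85TF H98TF

variable {V : Type*} [Fintype V] [DecidableEq V]

theorem not_diag {G : Finset (Sym2 V)} (hG : G ⊆ LW univ) : ∀ e ∈ G, ¬ e.IsDiag := by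
  intro e he h
  induction e using Sym2.ind with
  | _ x y =>
    rw [Sym2.mk_isDiag_iff] at h
    subst h
    exact notMem_diag hG x he

/-- Plane 2-factors with cycles of length at least five, exactly `2n - 3` edges. -/
theorem exact_five {cross : Sym2 V → Sym2 V → Prop} (hsymm : ∀ e f, cross e f → cross f e)
    (hHD : ∀ W, HD cross W) (h5 : 5 ≤ Fintype.card V)
    (E : ∀ G : Finset (Sym2 V), G ⊆ LW univ → TC G → ∀ (A : Finset V) (b d : V) (U : Finset V),
      Cov5 G (insert b A) → Cov5 G (insert d A) → b ∈ U → d ∈ U → ¬ Disc U G →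
      (∀ u ∈ U, u ≠ b → u ≠ d → ¬ Cov5 G (insert u A)) → Cov5 G (insert b (insert d A))) :
    ∃ G : Finset (Sym2 V), G ⊆ LW univ ∧ Plane cross G ∧ TC G ∧ G.card = 2 * Fintype.card V - 3 ∧
      Cov5 G univ := by
  obtain ⟨x, y, hxy⟩ := Fintype.exists_pair_of_one_lt_card (α := V) (by omega)
  obtain ⟨S, G, -, hSG, hGL, hGp, hcard, hac⟩ := H63T.functor_exact hsymm hHD ⟨x, y, hxy⟩
    (H63T.hD_of_ack fun G k hG hk => H98TF.ackN hG hk) X5
    (fun G G' hGG hG' _ _ W hW => x5_anti h5 hGG hG' hW) (fun G W _ _ _ h => x5_disc h)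
  have hg : TC S ∧ Cov5 S univ := by
    by_contra hg
    exact hac (ac_x5 h5 (hSG.trans hGL) (E S (hSG.trans hGL))
      (fun hT v hv => H32L5.class5 (not_diag (hSG.trans hGL)) h5 hT.1 hT.2 v hv) hg)
  obtain ⟨hT, F, hFG, hdeg, ht, hq, hA⟩ := good_mono hSG hg
  obtain ⟨H, hFH, hHG, h1, h2, h3⟩ := H63T.trim_exact G F (not_diag hGL) hFG
    (fun v => by
      rcases hdeg v with h | h <;> · unfold dg at h; omega) hT.1 hT.2 (by omega) hcard
  exact ⟨H, hHG.trans hGL, plane_sub hHG hGp, ⟨h1, h2⟩, h3, F, hFH, hdeg, ht, hq, hA⟩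

end H8F
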