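import Pool.Agent.Lib.H8F.Path

/-!
# H8F, file ExchL: (P1) for the deletion and the link
-/

set_option autoImplicit false
set_option linter.unusedSectionVars false

namespace H8F

open Finset H98P H98Z H98M H63F H30F

variable {V : Type*} [Fintype V] [DecidableEq V]

theorem exch_erase {G : Finset (Sym2 V)} {M : Finset V} {K : Finset V → Prop} (h : Exch G M K) (b : V) :
    Exch G (M.erase b) K := by
  sorry

theorem exch_link {G : Finset (Sym2 V)} {M : Finset V} {K : Finset V → Prop} (h : Exch G M K) {b : V} (hb : b ∈ M) :
    Exch G (M.erase b) (fun A => K (insert b A)) := by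
  sorry

end H8F
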