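import Pool.Agent.Lib.LD.Def
import Pool.Agent.Lib.H30D.S

/-!
# H8F, file L1U: the sets separated by two vertices form an acyclic poset if there is an uncrossed separation

Graphs in the words of `LD`.
-/

set_option autoImplicit false

set_option linter.unusedSectionVars false

namespace H8F

open Finset H98P H98Z H98M H63F H30F

section

variable {V : Type*} [DecidableEq V]

theorem sep_mem {E : Finset (Sym2 V)} {Y : Finset V} {x y : V} {P Q : Finset V} (h : LD.Sep E Y x y P Q)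
    {a : V} : a ∈ Y ↔ a = x ∨ a = y ∨ a ∈ P ∨ a ∈ Q := by
  rw [← h.eq]
  simp only [mem_insert, mem_union]

/-- A nonempty set whose only outside neighbour is `z` contains everything but `z`. -/
theorem tcy_closed {E : Finset (Sym2 V)} {Y : Finset V} (h : LD.TCY E Y) {K : Finset V} {z : V}
    (hz : z ∈ Y) (hK : K ⊆ Y) (hne : K.Nonempty) (hzK : z ∉ K)
    (hcl : ∀ a ∈ K, ∀ b ∈ Y, s(a, b) ∈ E → b ∈ K ∨ b = z) {w : V} (hw : w ∈ Y) (hwz : w ≠ z) : w ∈ K := by
  by_contra hwK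
  refine h.conn' z hz ⟨K, Y.erase z \ K, hne, ⟨w, mem_sdiff.2 ⟨mem_erase.2 ⟨hwz, hw⟩, hwK⟩⟩,
    disjoint_sdiff, union_sdiff_of_subset fun a ha => mem_erase.2 ⟨fun e => hzK (e ▸ ha), hK ha⟩,
    fun a ha b hb hab => ?_⟩
  obtain ⟨hb1, hb2⟩ := mem_sdiff.1 hb
  obtain ⟨hb3, hb4⟩ := mem_erase.1 hb1
  rcases hcl a ha b hb4 hab with h1 | h1
  · exact hb2 h1
  · exact hb3 h1

/-- The neighbours of a side. -/
theorem sep_nbr {E : Finset (Sym2 V)} {Y : Finset V} {x y : V} {P Q : Finset V} (h : LD.Sep E Y x y P Q)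
    {a b : V} (ha : a ∈ P) (hb : b ∈ Y) (hab : s(a, b) ∈ E) : b = x ∨ b = y ∨ b ∈ P := by
  rcases (sep_mem h).1 hb with h1 | h1 | h1 | h1
  · exact Or.inl h1
  · exact Or.inr (Or.inl h1)
  · exact Or.inr (Or.inr h1)
  · exact absurd hab (h.noE a ha b h1)

theorem side_aux {E : Finset (Sym2 V)} {Y : Finset V} {x y u v : V} {P Q C D : Finset V} (hT : LD.TCY E Y)
    (h : LD.Sep E Y x y P Q) (h' : LD.Sep E Y u v C D) (hx : x ∉ C) (hy : y ∉ C) (hu : u ∈ P) :
    C ⊆ P ∧ u ∉ Q ∧ v ∉ Q := by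
  have huQ : u ∉ Q := disjoint_left.1 h.dis hu
  have hux : u ≠ x := fun e => h.xP (e ▸ hu)
  have huy : u ≠ y := fun e => h.yP (e ▸ hu)
  have huY : u ∈ Y := (sep_mem h').2 (Or.inl rfl)
  have hvY : v ∈ Y := (sep_mem h').2 (Or.inr (Or.inl rfl))
  have hCP : C ⊆ P := by
    intro c hc
    have hcY : c ∈ Y := (sep_mem h').2 (Or.inr (Or.inr (Or.inl hc)))
    rcases (sep_mem h).1 hcY with e | e | e | e
    · exact absurd (e ▸ hc) hx
    · exact absurd (e ▸ hc) hy
    · exact e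
    · exfalso
      have h1 : u ∈ C ∩ Q := by
        refine tcy_closed hT hvY (fun a ha => (sep_mem h').2 (Or.inr (Or.inr (Or.inl (mem_inter.1 ha).1))))
          ⟨c, mem_inter.2 ⟨hc, e⟩⟩ (fun hv => h'.yP (mem_inter.1 hv).1) ?_ huY h'.ne
        intro a ha b hb hab
        obtain ⟨haC, haQ⟩ := mem_inter.1 ha
        rcases sep_nbr h' haC hb hab with e1 | e1 | e1
        · exfalso
          rcases sep_nbr h.symm haQ hb hab with e2 | e2 | e2
          · exact hux (e1.symm.trans e2)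
          · exact huy (e1.symm.trans e2)
          · exact huQ (e1 ▸ e2)
        · exact Or.inr e1
        · left
          rcases sep_nbr h.symm haQ hb hab with e2 | e2 | e2
          · exact absurd (e2 ▸ e1) hx
          · exact absurd (e2 ▸ e1) hy
          · exact mem_inter.2 ⟨e1, e2⟩
      exact huQ (mem_inter.1 h1).2
  refine ⟨hCP, huQ, fun hvQ => ?_⟩
  have h1 : v ∈ C := by
    refine tcy_closed hT huY (fun a ha => (sep_mem h').2 (Or.inr (Or.inr (Or.inl ha)))) h'.P0 h'.xP ?_ hvY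
      h'.ne.symm
    intro a ha b hb hab
    rcases sep_nbr h' ha hb hab with e1 | e1 | e1
    · exact Or.inr e1
    · exfalso
      exact h.noE a (hCP ha) v hvQ (e1 ▸ hab)
    · exact Or.inl e1
  exact h'.yP h1

/-- THE SIDE LEMMA. -/
theorem side {E : Finset (Sym2 V)} {Y : Finset V} {x y u v : V} {P Q C D : Finset V} (hT : LD.TCY E Y)
    (h : LD.Sep E Y x y P Q) (h' : LD.Sep E Y u v C D) (hx : x ∉ C) (hy : y ∉ C)
    (hne : ¬ ((u = x ∨ u = y) ∧ (v = x ∨ v = y))) :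
    (C ⊆ P ∧ u ∉ Q ∧ v ∉ Q) ∨ (C ⊆ Q ∧ u ∉ P ∧ v ∉ P) := by
  have huY : u ∈ Y := (sep_mem h').2 (Or.inl rfl)
  have hvY : v ∈ Y := (sep_mem h').2 (Or.inr (Or.inl rfl))
  rcases (sep_mem h).1 huY with e | e | e | e
  · rcases (sep_mem h).1 hvY with f | f | f | f
    · exact absurd ⟨Or.inl e, Or.inl f⟩ hne
    · exact absurd ⟨Or.inl e, Or.inr f⟩ hne
    · obtain ⟨h1, h2, h3⟩ := side_aux hT h h'.flip hx hy f
      exact Or.inl ⟨h1, h3, h2⟩
    · obtain ⟨h1, h2, h3⟩ := side_aux hT h.symm h'.flip hx hy f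
      exact Or.inr ⟨h1, h3, h2⟩
  · rcases (sep_mem h).1 hvY with f | f | f | f
    · exact absurd ⟨Or.inr e, Or.inl f⟩ hne
    · exact absurd ⟨Or.inr e, Or.inr f⟩ hne
    · obtain ⟨h1, h2, h3⟩ := side_aux hT h h'.flip hx hy f
      exact Or.inl ⟨h1, h3, h2⟩
    · obtain ⟨h1, h2, h3⟩ := side_aux hT h.symm h'.flip hx hy f
      exact Or.inr ⟨h1, h3, h2⟩
  · exact Or.inl (side_aux hT h h' hx hy e)
  · exact Or.inr (side_aux hT h.symm h' hx hy e)

/-- An uncrossed pair is outside one side of every separation. -/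
theorem unc_side {E : Finset (Sym2 V)} {Y : Finset V} {x y u v : V} {C D : Finset V}
    (hunc : LD.Unc E Y x y) (h' : LD.Sep E Y u v C D) : (x ∉ C ∧ y ∉ C) ∨ (x ∉ D ∧ y ∉ D) := by
  have h1 := hunc u v C D h'
  have h2 := hunc u v D C h'.symm
  by_cases hx : x ∈ C
  · exact Or.inr ⟨disjoint_left.1 h'.dis hx, fun hy => h1 ⟨hx, hy⟩⟩
  · by_cases hy : y ∈ C
    · exact Or.inr ⟨fun hx' => h2 ⟨hx', hy⟩, disjoint_left.1 h'.dis hy⟩
    · exact Or.inl ⟨hx, hy⟩

/-- A separation of a set inside `P + x + y` is at two vertices outside `Q`. -/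
theorem x2_out {E : Finset (Sym2 V)} {Y : Finset V} {x y u v : V} {P Q C D W : Finset V} (hT : LD.TCY E Y)
    (h : LD.Sep E Y x y P Q) (hunc : LD.Unc E Y x y) (h' : LD.Sep E Y u v C D)
    (hW : ∀ w ∈ W, w = x ∨ w = y ∨ w ∈ P) (hC : ∃ a ∈ W, a ∈ C) (hD : ∃ b ∈ W, b ∈ D) :
    u ∉ Q ∧ v ∉ Q := by
  by_cases hne : (u = x ∨ u = y) ∧ (v = x ∨ v = y)
  · have h1 : ∀ t, t = x ∨ t = y → t ∉ Q := by
      rintro t (rfl | rfl)
      · exact h.xQ
      · exact h.yQ
    exact ⟨h1 u hne.1, h1 v hne.2⟩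
  · have main : ∀ C D : Finset V, LD.Sep E Y u v C D → (∃ a ∈ W, a ∈ C) → x ∉ C → y ∉ C → u ∉ Q ∧ v ∉ Q := by
      rintro C D h' ⟨a, ha, haC⟩ hx hy
      rcases side hT h h' hx hy hne with h1 | h1
      · exact h1.2
      · exfalso
        rcases hW a ha with e | e | e
        · exact hx (e ▸ haC)
        · exact hy (e ▸ haC)
        · exact disjoint_left.1 h.dis e (h1.1 haC)
    rcases unc_side hunc h' with ⟨hx, hy⟩ | ⟨hx, hy⟩
    · exact main C D h' hC hx hy
    · exact main D C h'.symm hD hx hy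

/-- (X2) of a set inside `P + x + y` is inherited by adding vertices of `Q`. -/
theorem x2_add {E : Finset (Sym2 V)} {Y : Finset V} {x y : V} {P Q W B : Finset V} (hT : LD.TCY E Y)
    (h : LD.Sep E Y x y P Q) (hunc : LD.Unc E Y x y) (hW : ∀ w ∈ W, w = x ∨ w = y ∨ w ∈ P) (hB : B ⊆ Q)
    (hX : LD.X2 E Y W) : LD.X2 E Y (W ∪ B) := by
  obtain ⟨u, v, C, D, h', hu, hv, hC, hD⟩ := hX
  obtain ⟨h1, h2⟩ := x2_out hT h hunc h' hW hC hD
  obtain ⟨a, ha, haC⟩ := hC
  obtain ⟨b, hb, hbD⟩ := hD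
  refine ⟨u, v, C, D, h', fun h3 => ?_, fun h3 => ?_, ⟨a, mem_union_left _ ha, haC⟩,
    ⟨b, mem_union_left _ hb, hbD⟩⟩
  · rcases mem_union.1 h3 with h3 | h3
    · exact hu h3
    · exact h1 (hB h3)
  · rcases mem_union.1 h3 with h3 | h3
    · exact hv h3
    · exact h2 (hB h3)

/-- The closed side is not separated. -/
theorem x2_not_side {E : Finset (Sym2 V)} {Y : Finset V} {x y : V} {P Q : Finset V} (hT : LD.TCY E Y)
    (h : LD.Sep E Y x y P Q) (hunc : LD.Unc E Y x y) : ¬ LD.X2 E Y (P ∪ {x, y}) := by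
  rintro ⟨u, v, C, D, h', hu, hv, hC, hD⟩
  obtain ⟨h1, h2⟩ := x2_out hT h hunc h' (W := P ∪ {x, y}) (fun w hw => by
    simp only [mem_union, mem_insert, mem_singleton] at hw
    tauto) hC hD
  have huY : u ∈ Y := (sep_mem h').2 (Or.inl rfl)
  simp only [mem_union, mem_insert, mem_singleton, not_or] at hu
  rcases (sep_mem h).1 huY with e | e | e | e
  · exact hu.2.1 e
  · exact hu.2.2 e
  · exact hu.1 e
  · exact h1 e

/-- `X2` of a subset of an uncrossed pair fails. -/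
theorem x2_not_pair {E : Finset (Sym2 V)} {Y : Finset V} {x y : V} {W : Finset V}
    (hunc : LD.Unc E Y x y) (hW : W ⊆ {x, y}) : ¬ LD.X2 E Y W := by
  rintro ⟨u, v, C, D, h', -, -, ⟨a, ha, haC⟩, ⟨b, hb, hbD⟩⟩
  have ha' := hW ha
  have hb' := hW hb
  rw [mem_insert, mem_singleton] at ha' hb'
  have hab : a ≠ b := fun e => disjoint_left.1 h'.dis haC (e ▸ hbD)
  rcases ha' with rfl | rfl
  · rcases hb' with rfl | rfl
    · exact hab rfl
    · exact hunc u v C D h' ⟨haC, hbD⟩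
  · rcases hb' with rfl | rfl
    · exact hunc u v D C h'.symm ⟨hbD, haC⟩
    · exact hab rfl

end

section

variable {V : Type*} [Fintype V] [DecidableEq V]

/-- (L1U): the poset of the separated sets is acyclic. -/
theorem l1u {E : Finset (Sym2 V)} {Y : Finset V} {x y : V} {P Q : Finset V} (hT : LD.TCY E Y)
    (h : LD.Sep E Y x y P Q) (hunc : LD.Unc E Y x y) : AC (Ch fun W : Finset V => LD.X2 E Y W ∧ W ⊂ Y) := by
  have hPY : P ⊆ Y := fun a ha => (sep_mem h).2 (Or.inr (Or.inr (Or.inl ha)))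
  have hQY : Q ⊆ Y := fun a ha => (sep_mem h).2 (Or.inr (Or.inr (Or.inr ha)))
  have hxY : x ∈ Y := (sep_mem h).2 (Or.inl rfl)
  have hyY : y ∈ Y := (sep_mem h).2 (Or.inr (Or.inl rfl))
  have hZY : ({x, y} : Finset V) ⊆ Y := by
    intro t ht
    rw [mem_insert, mem_singleton] at ht
    rcases ht with rfl | rfl
    · exact hxY
    · exact hyY
  have hPe : Y ∩ (P ∪ {x, y}) = P ∪ {x, y} := inter_eq_right.2 (union_subset hPY hZY)
  have hQe : Y ∩ (Q ∪ {x, y}) = Q ∪ {x, y} := inter_eq_right.2 (union_subset hQY hZY)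
  have hPZ : Disjoint P ({x, y} : Finset V) := by
    rw [disjoint_right]
    intro t ht
    rw [mem_insert, mem_singleton] at ht
    rcases ht with rfl | rfl
    · exact h.xP
    · exact h.yP
  have hQZ : Disjoint Q ({x, y} : Finset V) := by
    rw [disjoint_right]
    intro t ht
    rw [mem_insert, mem_singleton] at ht
    rcases ht with rfl | rfl
    · exact h.xQ
    · exact h.yQ
  refine H30D.step_i (P := fun W => LD.X2 E Y W) (M := Y) (Cc := P) (Dd := Q) (Z := {x, y}) h.dis hPZ hQZ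
    ?_ ?_ ?_ ?_ ?_ ?_ ?_ ?_ ?_ ?_
  · intro t ht
    rw [mem_union, mem_union, mem_insert, mem_singleton]
    rcases (sep_mem h).1 ht with e | e | e | e
    · exact Or.inr (Or.inl e)
    · exact Or.inr (Or.inr e)
    · exact Or.inl (Or.inl e)
    · exact Or.inl (Or.inr e)
  · rw [inter_eq_right.2 hPY]
    exact h.P0
  · rw [inter_eq_right.2 hQY]
    exact h.Q0
  · exact ⟨x, mem_inter.2 ⟨hxY, mem_insert_self _ _⟩⟩
  · rintro W hWM hWZ ⟨a, ha⟩ ⟨b, hb⟩
    rw [mem_inter] at ha hb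
    refine ⟨x, y, P, Q, h, fun hx => ?_, fun hy => ?_, ⟨a, ha⟩, ⟨b, hb⟩⟩
    · exact disjoint_left.1 hWZ hx (mem_insert_self _ _)
    · exact disjoint_left.1 hWZ hy (mem_insert_of_mem (mem_singleton_self _))
  · exact fun W hW => x2_not_pair hunc hW
  · intro W _ hW hX B hB
    refine x2_add hT h hunc (fun w hw => ?_) (hB.trans inter_subset_right) hX
    have h1 := hW hw
    simp only [mem_union, mem_insert, mem_singleton] at h1
    tauto
  · intro W _ hW hX B hB
    refine x2_add hT h.symm hunc (fun w hw => ?_) (hB.trans inter_subset_right) hX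
    have h1 := hW hw
    simp only [mem_union, mem_insert, mem_singleton] at h1
    tauto
  · rw [hPe]
    exact fun hX => absurd hX (x2_not_side hT h hunc)
  · rw [hQe]
    exact fun hX => absurd hX (x2_not_side hT h.symm hunc)

/-- (L1U) for the vertex set `univ`. -/
theorem l1u_univ {E : Finset (Sym2 V)} {x y : V} {P Q : Finset V} (hT : LD.TCY E univ)
    (h : LD.Sep E univ x y P Q) (hunc : LD.Unc E univ x y) : AC (Ch fun W : Finset V => LD.X2 E univ W) := by
  refine ac_congr (fun t => ?_) (l1u hT h hunc)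
  constructor
  · exact ch_mono fun X hX => hX.1
  · refine ch_mono fun X hX => ⟨hX, ?_⟩
    obtain ⟨u, v, C, D, h', hu, hv, hC, hD⟩ := hX
    exact (Finset.ssubset_univ_iff).2 fun e => hu (e ▸ mem_univ u)

end

end H8F
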