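import Pool.Agent.Lib.H8F.Rem

/-!
# H8F, file R: removal of the connected sets
-/

set_option autoImplicit false
set_option linter.unusedSectionVars false

namespace H8F

open Finset H98P H98Z H98M H63F H30F

variable {V : Type*} [Fintype V] [DecidableEq V]

/-- (R) Remove the connected members in decreasing order (induction on the number of remaining ones). -/
theorem ac_X {G : Finset (Sym2 V)} {K : Finset V → Prop}
    (h : ∀ M : Finset V, ¬ Disc M G → ¬ K M → AC (Ch fun W : Finset V => W ⊂ M ∧ ¬ K W))
    (hK : Dn K) (hV : ¬ K univ) : AC (Ch fun W : Finset V => Disc W G ∧ ¬ K W) := by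
  sorry

end H8F
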