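import Pool.Agent.Lib.H8F.P3
import Pool.Agent.Lib.H8F.R
import Pool.Agent.Lib.H8F.Cut

/-!
# H8F, file Main: the abstract theorem
-/

set_option autoImplicit false
set_option linter.unusedSectionVars false

namespace H8F

open Finset H98P H98Z H98M H63F H30F

variable {V : Type*} [Fintype V] [DecidableEq V]

theorem disc_anti {G G' : Finset (Sym2 V)} (h : G ⊆ G') {W : Finset V} (hW : Disc W G') : Disc W G := by
  obtain ⟨C, D, h1, h2, h3, h4, h5⟩ := hW
  exact ⟨C, D, h1, h2, h3, h4, fun x hx y hy hxy => h5 x hx y hy (h hxy)⟩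

theorem tc_mono {G G' : Finset (Sym2 V)} (h : G ⊆ G') (hG : TC G) : TC G' :=
  ⟨fun h1 => hG.1 (disc_anti h h1), fun z h1 => hG.2 z (disc_anti h h1)⟩

/-- Every simple drawing has a plane 2-connected subdrawing with a 2-factor (abstract form). -/
theorem plane_two_factor {cross : Sym2 V → Sym2 V → Prop} (hsymm : ∀ e f, cross e f → cross f e)
    (hHD : ∀ W, HD cross W) (hV : 3 ≤ Fintype.card V) :
    ∃ G : Finset (Sym2 V), G ⊆ LW univ ∧ Plane cross G ∧ TC G ∧ Cov G univ := by
  obtain ⟨x, y, hxy⟩ : ∃ x y : V, x ≠ y := by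
    have h1 : 1 < Fintype.card V := by omega
    exact Fintype.exists_pair_of_one_lt_card h1
  obtain ⟨G, -, hG1, hG2, hG3⟩ := functor hsymm hHD ⟨x, y, hxy⟩
    (fun G W => Disc W G ∧ (TC G → ¬ Cov G W))
    (fun G G' h _ _ _ W hW => ⟨disc_anti h hW.1, fun h1 h2 => hW.2 (tc_mono h h1) (cov_mono h h2)⟩)
    (fun G W _ _ _ hW => hW.1)
  refine ⟨G, hG1, hG2, ?_⟩
  by_cases hT : TC G
  · refine ⟨hT, ?_⟩
    by_contra hc
    refine hG3 ?_
    have h1 := ac_X (G := G) (K := Cov G) (fun M hM hKM => by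
      have hn : M.Nonempty := by
        rw [nonempty_iff_ne_empty]
        rintro rfl
        exact hKM (cov_dn G _ _ (empty_subset _) (cov_single hV hG1 hT x))
      obtain ⟨v, hv⟩ := hn
      exact low M.card (Cov G) M le_rfl (cov_dn G) hM (exch_cov hG1 M) ⟨v, hv, cov_single hV hG1 hT v⟩ hKM)
      (cov_dn G) hc
    refine ac_congr (fun c => ?_) h1
    constructor
    · exact ch_mono fun W hW => ⟨hW.1, fun _ => hW.2⟩
    · exact ch_mono fun W hW => ⟨hW.1, hW.2 hT⟩
  · exfalso
    refine hG3 (ac_congr (fun c => ?_) (ac_disc hG1 hT))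
    constructor
    · exact ch_mono fun W hW => ⟨hW, fun h => absurd h hT⟩
    · exact ch_mono fun W hW => hW.1

end H8F
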