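import Pool.Agent.Lib.H8F.Def

/-!
# H8F, file Near: the nearest vertex of a set
-/

set_option autoImplicit false
set_option linter.unusedSectionVars false

namespace H8F

open Finset H98P H98Z H98M H63F H30F

variable {V : Type*} [Fintype V] [DecidableEq V]

/-- `b` is joined to a vertex of `S` (not `b`) by a walk inside `M` with inner vertices outside `S`. Proof: otherwise
let `C` be `b` together with the vertices of `M - S` which are reachable from `b` through `M - S`, and `D = M - C`. -/
theorem near {G : Finset (Sym2 V)} {M : Finset V} (hM : ¬ Disc M G) {S : Finset V} (hS : S ⊆ M) {b : V} (hb : b ∈ S)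
    (hS' : S ≠ {b}) : ∃ c ∈ S, c ≠ b ∧ Via G (fun x => x ∈ M ∧ x ∉ S) b c := by
  sorry

end H8F
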