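import Pool.Agent.Lib.H8F.Def

/-!
# H8F, file Noncut: a vertex which can be removed
-/

set_option autoImplicit false
set_option linter.unusedSectionVars false

namespace H8F

open Finset H98P H98Z H98M H63F H30F

variable {V : Type*} [Fintype V] [DecidableEq V]

/-- A connected set with at least two vertices has a vertex which can be removed. -/
theorem exists_noncut {G : Finset (Sym2 V)} {M : Finset V} (hM : ¬ Disc M G) (hn : M.Nonempty) :
    ∃ b ∈ M, ¬ Disc (M.erase b) G := by
  sorry

end H8F
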