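import Pool.Agent.Lib.H8F.Def

/-!
# H8F, file Path: the edge set of a path
-/

set_option autoImplicit false
set_option linter.unusedSectionVars false

namespace H8F

open Finset H98P H98Z H98M H63F H30F

variable {V : Type*} [Fintype V] [DecidableEq V]

theorem Via.mono {G : Finset (Sym2 V)} {I J : V → Prop} (h : ∀ x, I x → J x) {b d : V} (hv : Via G I b d) :
    Via G J b d := by
  induction hv with
  | edge h1 => exact Via.edge h1
  | step h1 h2 _ ih => exact Via.step h1 (h _ h2) ih

/-- The edge set of a path from `b` to `d` with inner vertices in `I`. (Take a walk of minimal length, or go to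
`SimpleGraph.Walk.toPath` and use induction on the path.) -/
theorem path_set {G : Finset (Sym2 V)} (hG : G ⊆ LW univ) {I : V → Prop} {b d : V} (hbd : b ≠ d) (hb : ¬ I b)
    (hd : ¬ I d) (hv : Via G I b d) :
    ∃ R ⊆ G, dg R b = 1 ∧ dg R d = 1 ∧ ∀ v, v ≠ b → v ≠ d → dg R v = 0 ∨ (dg R v = 2 ∧ I v) := by
  sorry

end H8F
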