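import Pool.Agent.Lib.H8F.Walk
import Pool.Agent.Lib.H8F.Path

/-!
# H8F, file P1: the exchange property of `Cov`
-/

set_option autoImplicit false
set_option linter.unusedSectionVars false

namespace H8F

open Finset H98P H98Z H98M H63F H30F

variable {V : Type*} [Fintype V] [DecidableEq V]

theorem cov_dn (G : Finset (Sym2 V)) : Dn (Cov G) :=
  fun _ _ h ⟨F, hF, h1, h2⟩ => ⟨F, hF, h1, fun v hv => h2 v (h hv)⟩

theorem cov_mono {G G' : Finset (Sym2 V)} (h : G ⊆ G') {A : Finset V} (hA : Cov G A) : Cov G' A := by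
  obtain ⟨F, hF, h1, h2⟩ := hA
  exact ⟨F, hF.trans h, h1, h2⟩

/-- (P1) for `Cov`: `walk` with `X = F1 + e`, then the path of `path_set`. -/
theorem exch_cov {G : Finset (Sym2 V)} (hG : G ⊆ LW univ) (M : Finset V) : Exch G M (Cov G) := by
  sorry

end H8F
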