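import Pool.Agent.Lib.H8F.P1
import Pool.Agent.Lib.H8F.Near

/-!
# H8F, file P2: every vertex of a 2-connected graph is on a cycle
-/

set_option autoImplicit false
set_option linter.unusedSectionVars false

namespace H8F

open Finset H98P H98Z H98M H63F H30F

variable {V : Type*} [Fintype V] [DecidableEq V]

/-- Every vertex of a 2-connected graph with at least three vertices is on a cycle: `v` has a neighbour `u`
(`near` on `univ`), and by `near` on `univ.erase u` (with `S = {v, u'}`) or on `univ.erase v` there is a path from
`v` to `u` which avoids the edge `vu`: take a neighbour `u' ≠ u` of `v` (`G - u` is connected) and a path from `u'`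
to `u` in `G - v` (`path_set`). -/
theorem cov_single (hV : 3 ≤ Fintype.card V) {G : Finset (Sym2 V)} (hG : G ⊆ LW univ) (h : TC G) (v : V) :
    Cov G {v} := by
  sorry

end H8F
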