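import Pool.Agent.Lib.H8F.P2
import Pool.Agent.Lib.H8F.Noncut
import Pool.Agent.Lib.H8F.ExchL
import Pool.Agent.Lib.H8F.AddMax

/-!
# H8F, file P3: the tree lemma in dual form
-/

set_option autoImplicit false
set_option linter.unusedSectionVars false

namespace H8F

open Finset H98P H98Z H98M H63F H30F

variable {V : Type*} [Fintype V] [DecidableEq V]

/-- TREE LEMMA, dual form. Induction on `M.card`. `b` from `exists_noncut`, `M' = M.erase b`, `L A = K (insert b A)`.
`U = {W ⊂ M, ¬ K W}`.
(1) The part `U - {M'}` (with `W ↦ W ∪ {b}`, `ac_closure`) has the type of `{A ⊂ M', ¬ L A}`: acyclic. Namely: if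
`¬ K {b}` it has the bottom `∅` (`ac_ch_cone`; `M'` is nonempty, since `K {x}` for some `x ∈ M`); if `K {b}` and
`K {b, x}` for some `x ∈ M'`: induction for `L`; otherwise `K {x}` fails for all `x ∈ M'` by `near` (`S = {x ∈ M, K {x}}`)
and (P1) with `A = ∅`, so `K W` iff `W ⊆ {b}` for `W ⊆ M`, and `U = {W ⊂ M, W ≠ ∅, W ≠ {b}}` is a cone:
`W ≥ W - b ≤ M'` (do this case first, for the whole `U`).
(2) If `K M'`, then `M'` is not in `U` and we are done. If `¬ K M'`: `ac_add_max` with `m = M'`: the part below `M'` is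
`{W ⊂ M', ¬ K W}`: induction for `K` on `M'` if some `K {x}`, `x ∈ M'`, otherwise we are in the last case of (1). -/
theorem low {G : Finset (Sym2 V)} (k : ℕ) : ∀ (K : Finset V → Prop) (M : Finset V), M.card ≤ k → Dn K →
    ¬ Disc M G → Exch G M K → (∃ x ∈ M, K {x}) → ¬ K M → AC (Ch fun W : Finset V => W ⊂ M ∧ ¬ K W) := by
  sorry

end H8F
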