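import Pool.Agent.Lib.H8F.Def

/-!
# H8F, file Rem: removing an element of a poset
-/

set_option autoImplicit false
set_option linter.unusedSectionVars false

namespace H8F

open Finset H98P H98Z H98M H63F H30F

variable {V : Type*} [Fintype V] [DecidableEq V]

/-- REMOVAL of an arbitrary element `m`: if `P` is acyclic and the part below `m` is acyclic, then `P - m` is acyclic.
(`Ch P` is the union of `Ch (P - m)` and the star of `m`; the intersection is the join of the part below `m` and the part
above `m`: acyclic. So `H_i (P - m) = H_i (P)`: Mayer-Vietoris, prove the needed half directly: a cycle `z` of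
`Ch (P - m)` bounds `c` in `Ch P`; split `c` into the chains with and without `m`.) -/
theorem ac_remove {α : Type*} [PartialOrder α] [Fintype α] [DecidableEq α] {P : α → Prop} {m : α} (hm : P m)
    (h1 : AC (Ch fun x => P x ∧ x < m)) (h2 : AC (Ch P)) : AC (Ch fun x => P x ∧ x ≠ m) := by
  sorry

end H8F
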