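import Pool.Agent.Lib.H85TF.P1

/-!
# H8F, file W4: the exchange lemma for sets covered by pairwise disjoint cycles of length at least four

The walk of `H85TF.walk` with the edges chosen such that no triangle is created.
-/

set_option autoImplicit false

namespace H8F

open Finset H85TF

variable {V : Type*} [DecidableEq V]

/-- `F` contains no triangle. -/
def NoTri (F : Finset (Sym2 V)) : Prop :=
  ∀ x y z : V, s(x, y) ∈ F → s(y, z) ∈ F → s(x, z) ∉ F

/-- `A` is covered by pairwise disjoint cycles of `E` of length at least four. -/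
def Cov4 (E : Finset (Sym2 V)) (A : Finset V) : Prop :=
  ∃ F ⊆ E, (∀ v, dg F v = 0 ∨ dg F v = 2) ∧ NoTri F ∧ ∀ v ∈ A, dg F v = 2

theorem NoTri.sub {F F' : Finset (Sym2 V)} (h : F ⊆ F') (hF : NoTri F') : NoTri F :=
  fun x y z h1 h2 h3 => hF x y z (h h1) (h h2) (h h3)

theorem NoTri.erase {F : Finset (Sym2 V)} (hF : NoTri F) (e : Sym2 V) : NoTri (F.erase e) :=
  hF.sub (erase_subset _ _)

theorem swap_mem {F : Finset (Sym2 V)} {x y : V} (h : s(x, y) ∈ F) : s(y, x) ∈ F := by
  rw [Sym2.eq_swap]
  exact h

theorem notMem_of_dg {F : Finset (Sym2 V)} {a u : V} (h : dg F a = 0) : s(a, u) ∉ F := fun h' => by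
  have := dg_pos h'
  omega

theorem unique_edge {F : Finset (Sym2 V)} {a y z : V} (h : dg F a = 1) (hy : s(a, y) ∈ F)
    (hz : s(a, z) ∈ F) : y = z := by
  unfold dg at h
  obtain ⟨e, he⟩ := card_eq_one.1 h
  have h1 : s(a, y) ∈ F.filter fun e => a ∈ e := mem_filter.2 ⟨hy, by simp⟩
  have h2 : s(a, z) ∈ F.filter fun e => a ∈ e := mem_filter.2 ⟨hz, by simp⟩
  rw [he, mem_singleton] at h1 h2
  have h3 := h1.trans h2.symm
  rw [Sym2.eq_iff] at h3
  rcases h3 with h3 | h3
  · exact h3.2
  · exact h3.2.trans h3.1

theorem two_edges {F : Finset (Sym2 V)} {a : V} (h : dg F a = 2) :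
    ∃ y z, y ≠ z ∧ s(a, y) ∈ F ∧ s(a, z) ∈ F := by
  unfold dg at h
  obtain ⟨e, f, hef, h1⟩ := card_eq_two.1 h
  have he : e ∈ F.filter fun e => a ∈ e := by rw [h1]; simp
  have hf : f ∈ F.filter fun e => a ∈ e := by rw [h1]; simp
  rw [mem_filter] at he hf
  obtain ⟨y, rfl⟩ := he.2
  obtain ⟨z, rfl⟩ := hf.2
  exact ⟨y, z, fun h => hef (by rw [h]), he.1, hf.1⟩

theorem three_edges {F : Finset (Sym2 V)} {z p q r : V} (hpq : p ≠ q) (hpr : p ≠ r) (hqr : q ≠ r)
    (hp : s(z, p) ∈ F) (hq : s(z, q) ∈ F) (hr : s(z, r) ∈ F) : 3 ≤ dg F z := by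
  have inj : ∀ {x y : V}, s(z, x) = s(z, y) → x = y := by
    intro x y h
    rw [Sym2.eq_iff] at h
    rcases h with h | h
    · exact h.2
    · exact h.2.trans h.1
  have h1 : ({s(z, p), s(z, q), s(z, r)} : Finset (Sym2 V)) ⊆ F.filter fun e => z ∈ e := by
    intro e he
    simp only [mem_insert, mem_singleton] at he
    rcases he with rfl | rfl | rfl
    · exact mem_filter.2 ⟨hp, by simp⟩
    · exact mem_filter.2 ⟨hq, by simp⟩
    · exact mem_filter.2 ⟨hr, by simp⟩
  have h2 : ({s(z, p), s(z, q), s(z, r)} : Finset (Sym2 V)).card = 3 := by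
    rw [card_eq_three]
    exact ⟨_, _, _, fun h => hpq (inj h), fun h => hpr (inj h), fun h => hqr (inj h), rfl⟩
  unfold dg
  calc 3 = _ := h2.symm
    _ ≤ _ := card_le_card h1

/-- A triangle after adding an edge. -/
theorem tri_case {F : Finset (Sym2 V)} {a u : V} (hF : NoTri F)
    (hl : ∀ x, s(x, x) ∉ insert s(a, u) F) (h : ¬ NoTri (insert s(a, u) F)) :
    ∃ t, s(a, t) ∈ F ∧ s(u, t) ∈ F := by
  unfold NoTri at h
  push Not at h
  obtain ⟨x, y, z, h1, h2, h3⟩ := h
  have hxy : x ≠ y := fun e => hl y (e ▸ h1)
  have hyz : y ≠ z := fun e => hl z (e ▸ h2)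
  have hxz : x ≠ z := fun e => hl z (e ▸ h3)
  -- the new edge joins `p`, `q`, the third vertex is `t`
  have key : ∀ p q t : V, p ≠ t → q ≠ t → s(p, q) = s(a, u) → s(p, t) ∈ insert s(a, u) F →
      s(q, t) ∈ insert s(a, u) F → ∃ t, s(a, t) ∈ F ∧ s(u, t) ∈ F := by
    intro p q t hpt hqt e h4 h5
    have h6 : s(p, t) ∈ F := by
      rcases mem_insert.1 h4 with h | h
      · exfalso
        rw [← e, Sym2.eq_iff] at h
        rcases h with h | h
        · exact hqt h.2.symm
        · exact hpt h.2.symm
      · exact h
    have h7 : s(q, t) ∈ F := by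
      rcases mem_insert.1 h5 with h | h
      · exfalso
        rw [← e, Sym2.eq_iff] at h
        rcases h with h | h
        · exact hqt h.2.symm
        · exact hpt h.2.symm
      · exact h
    rw [Sym2.eq_iff] at e
    rcases e with ⟨rfl, rfl⟩ | ⟨rfl, rfl⟩
    · exact ⟨t, h6, h7⟩
    · exact ⟨t, h7, h6⟩
  by_cases e1 : s(x, y) = s(a, u)
  · exact key x y z hxz hyz e1 h3 h2
  by_cases e2 : s(y, z) = s(a, u)
  · exact key y z x hxy.symm hxz.symm e2 (swap_mem h1) (swap_mem h3)
  by_cases e3 : s(x, z) = s(a, u)
  · exact key x z y hxy hyz.symm e3 h1 (swap_mem h2)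
  exact absurd (mem_of_mem_insert_of_ne h3 e3)
    (hF x y z (mem_of_mem_insert_of_ne h1 e1) (mem_of_mem_insert_of_ne h2 e2))

/-- The walk from `F₁` towards `F₂` without triangles. -/
theorem walk4 {E F₁ F₂ : Finset (Sym2 V)} (hE : ∀ e ∈ E, ¬ e.IsDiag) (h1 : F₁ ⊆ E) (h2 : F₂ ⊆ E)
    {A : Finset V} {b d : V} (hbd : b ≠ d) (hbA : b ∉ A) (hdA : d ∉ A)
    (hd1 : dg F₁ d = 0) (hb2 : dg F₂ b = 0) (hdeg2 : ∀ v, dg F₂ v = 0 ∨ dg F₂ v = 2)
    (hA2 : ∀ v ∈ A, dg F₂ v = 2) (ht2 : NoTri F₂) {e₀ : Sym2 V} (hde : d ∈ e₀) :
    ∀ (k : ℕ) (F : Finset (Sym2 V)) (a : V), (symmDiff F F₂).card < k → F ⊆ F₁ ∪ F₂ → e₀ ∈ F →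
      a ≠ b → a ≠ d → dg F d = 1 → dg F b = 2 → (dg F a = 1 ∨ dg F a = 3) →
      (∀ v, v ≠ a → v ≠ d → dg F v = 0 ∨ dg F v = 2) → (∀ v ∈ A, v ≠ a → dg F v = 2) →
      (dg F a = 1 → NoTri F) →
      (dg F a = 3 → ∃ u, s(a, u) ∈ F ∧ s(a, u) ∉ F₂ ∧ NoTri (F.erase s(a, u))) →
      ∃ F' ⊆ F₁ ∪ F₂, NoTri F' ∧ (∀ v ∈ A, dg F' v = 2) ∧
        (((∀ v, dg F' v = 0 ∨ dg F' v = 2) ∧ dg F' b = 2 ∧ dg F' d = 2) ∨
          (dg F' b = 1 ∧ dg F' d = 1 ∧ e₀ ∈ F' ∧
            ∀ v, v ≠ b → v ≠ d → dg F' v = 0 ∨ dg F' v = 2)) := by
  intro k
  induction k with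
  | zero => intro F a h; omega
  | succ k ih =>
    intro F a hk hF he₀ hab had hd hb ha hdeg hA ht ht3
    have hEu : ∀ {x y : V}, s(x, y) ∈ F₁ ∪ F₂ → x ≠ y := by
      intro x y hxy e
      refine hE s(x, y) ((union_subset h1 h2) hxy) ?_
      simpa using e
    have hdF : ∀ u, s(d, u) ∈ F → s(d, u) ∈ F₂ := by
      intro u hu
      rcases mem_union.1 (hF hu) with h3 | h3
      · exact absurd h3 (notMem_of_dg hd1)
      · exact h3
    -- removing an edge
    have rem : ∀ u, s(a, u) ∈ F → s(a, u) ∉ F₂ → NoTri (F.erase s(a, u)) →
        (dg F a = 1 → dg F₂ a = 0) →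
        ∃ F' ⊆ F₁ ∪ F₂, NoTri F' ∧ (∀ v ∈ A, dg F' v = 2) ∧
        (((∀ v, dg F' v = 0 ∨ dg F' v = 2) ∧ dg F' b = 2 ∧ dg F' d = 2) ∨
          (dg F' b = 1 ∧ dg F' d = 1 ∧ e₀ ∈ F' ∧
            ∀ v, v ≠ b → v ≠ d → dg F' v = 0 ∨ dg F' v = 2)) := by
      intro u hu hu2 htu hz
      have hau : a ≠ u := hEu (hF hu)
      have hud : u ≠ d := by
        intro e
        subst e
        exact hu2 (swap_mem (hdF a (swap_mem hu)))
      have he₀' : e₀ ∈ F.erase s(a, u) := by
        refine mem_erase.2 ⟨?_, he₀⟩
        rintro rfl
        rcases Sym2.mem_iff.1 hde with h | h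
        · exact had h.symm
        · exact hud h.symm
      have key := dg_erase hu
      have kd := key d
      rw [if_neg (by push Not; exact ⟨Ne.symm had, Ne.symm hud⟩)] at kd
      have ka := key a
      rw [if_pos (Or.inl rfl)] at ka
      have ku := key u
      rw [if_pos (Or.inr rfl)] at ku
      have hF' : F.erase s(a, u) ⊆ F₁ ∪ F₂ := (erase_subset _ _).trans hF
      have haA : a ∈ A → dg (F.erase s(a, u)) a = 2 := by
        intro h3
        have h4 := hA2 a h3
        rcases ha with h5 | h5
        · have := hz h5
          omega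
        · omega
      have ha' : dg (F.erase s(a, u)) a = 0 ∨ dg (F.erase s(a, u)) a = 2 := by omega
      by_cases hub : u = b
      · subst hub
        refine ⟨F.erase s(a, u), hF', htu, ?_, Or.inr ⟨by omega, by omega, he₀', ?_⟩⟩
        · intro v hv
          by_cases h3 : v = a
          · subst h3; exact haA hv
          · have h4 : v ≠ u := fun e => hbA (e ▸ hv)
            have h5 := key v
            rw [if_neg (by push Not; exact ⟨h3, h4⟩)] at h5
            have := hA v hv h3
            omega
        · intro v hv1 hv2
          by_cases h3 : v = a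
          · subst h3; exact ha'
          · have h5 := key v
            rw [if_neg (by push Not; exact ⟨h3, hv1⟩)] at h5
            have := hdeg v h3 hv2
            omega
      · have hu1 : dg (F.erase s(a, u)) u = 1 := by
          have := hdeg u (Ne.symm hau) hud
          omega
        refine ih (F.erase s(a, u)) u ?_ hF' he₀' hub hud (by omega) ?_ (Or.inl hu1) ?_ ?_
          (fun _ => htu) (fun h => by omega)
        · have h3 : symmDiff (F.erase s(a, u)) F₂ ⊂ symmDiff F F₂ := by
            rw [ssubset_iff_of_subset]
            · refine ⟨s(a, u), ?_, ?_⟩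
              · rw [mem_symmDiff]; exact Or.inl ⟨hu, hu2⟩
              · rw [mem_symmDiff]; rintro (h | h)
                · exact notMem_erase _ _ h.1
                · exact hu2 h.1
            · intro e he
              rw [mem_symmDiff] at he ⊢
              rcases he with he | he
              · exact Or.inl ⟨mem_of_mem_erase he.1, he.2⟩
              · refine Or.inr ⟨he.1, fun h4 => he.2 (mem_erase.2 ⟨?_, h4⟩)⟩
                rintro rfl
                exact hu2 he.1
          have := card_lt_card h3
          omega
        · have h5 := key b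
          rw [if_neg (by push Not; exact ⟨Ne.symm hab, Ne.symm hub⟩)] at h5
          omega
        · intro v hv1 hv2
          by_cases h3 : v = a
          · subst h3; exact ha'
          · have h5 := key v
            rw [if_neg (by push Not; exact ⟨h3, hv1⟩)] at h5
            have := hdeg v h3 hv2
            omega
        · intro v hv hv1
          by_cases h3 : v = a
          · subst h3; exact haA hv
          · have h5 := key v
            rw [if_neg (by push Not; exact ⟨h3, hv1⟩)] at h5
            have := hA v hv h3
            omega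
    rcases ha with ha | ha
    · have htF := ht ha
      obtain ⟨z, hz⟩ : ∃ z, s(a, z) ∈ F := by
        have h3 : 0 < dg F a := by omega
        obtain ⟨e, he⟩ := card_pos.1 h3
        rw [mem_filter] at he
        obtain ⟨z, rfl⟩ := he.2
        exact ⟨z, he.1⟩
      rcases hdeg2 a with h0 | h0
      · exact rem z hz (notMem_of_dg h0) (htF.erase _) (fun _ => h0)
      · -- adding an edge
        have haz : a ≠ z := hEu (hF hz)
        have hzuniq : ∀ t, s(a, t) ∈ F → t = z := fun t ht => unique_edge ha ht hz
        obtain ⟨u, hu2, hu, huz⟩ : ∃ u, s(a, u) ∈ F₂ ∧ s(a, u) ∉ F ∧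
            (s(a, z) ∈ F₂ ∨ s(u, z) ∉ F) := by
          by_cases hz2 : s(a, z) ∈ F₂
          · obtain ⟨u, h3, h4⟩ := exists_edge (F := F₂) (F' := F) (a := a) (by omega)
            exact ⟨u, h3, h4, Or.inl hz2⟩
          · obtain ⟨y1, y2, hy, h3, h4⟩ := two_edges h0
            have h5 : s(a, y1) ∉ F := fun h => hz2 (hzuniq y1 h ▸ h3)
            have h6 : s(a, y2) ∉ F := fun h => hz2 (hzuniq y2 h ▸ h4)
            by_cases h7 : s(y1, z) ∈ F
            · by_cases h8 : s(y2, z) ∈ F
              · exfalso
                have h9 : 3 ≤ dg F z := by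
                  refine three_edges (p := a) (q := y1) (r := y2) ?_ ?_ hy ?_ ?_ ?_
                  · exact hEu (mem_union_right _ h3)
                  · exact hEu (mem_union_right _ h4)
                  · exact swap_mem hz
                  · exact swap_mem h7
                  · exact swap_mem h8
                by_cases hzd : z = d
                · subst hzd; omega
                · have := hdeg z haz.symm hzd
                  omega
              · exact ⟨y2, h4, h6, Or.inr h8⟩
            · exact ⟨y1, h3, h5, Or.inr h7⟩
        have hau : a ≠ u := hEu (mem_union_right _ hu2)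
        have hub : u ≠ b := by
          rintro rfl
          have := dg_pos' hu2
          omega
        have key := dg_insert hu
        have ka := key a
        rw [if_pos (Or.inl rfl)] at ka
        have ku := key u
        rw [if_pos (Or.inr rfl)] at ku
        have kb := key b
        rw [if_neg (by push Not; exact ⟨Ne.symm hab, Ne.symm hub⟩)] at kb
        have hF' : insert s(a, u) F ⊆ F₁ ∪ F₂ := insert_subset (mem_union_right _ hu2) hF
        have hl : ∀ x, s(x, x) ∉ insert s(a, u) F := fun x hx => hEu (hF' hx) rfl
        have he₀' : e₀ ∈ insert s(a, u) F := mem_insert_of_mem he₀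
        -- a triangle must be `a u z`
        have tri : s(u, z) ∉ F → NoTri (insert s(a, u) F) := by
          intro h3
          by_contra h4
          obtain ⟨t, h5, h6⟩ := tri_case htF hl h4
          rw [hzuniq t h5] at h6
          exact h3 h6
        have hzz : s(a, z) ∈ F₂ → s(u, z) ∉ F₂ := by
          intro h3
          exact ht2 u a z (swap_mem hu2) h3
        by_cases hud : u = d
        · subst hud
          have h3 : s(u, z) ∉ F := by
            rcases huz with h4 | h4
            · exact fun h5 => hzz h4 (hdF z h5)
            · exact h4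
          refine ⟨insert s(a, u) F, hF', tri h3, ?_, Or.inl ⟨?_, by omega, by omega⟩⟩
          · intro v hv
            by_cases h3 : v = a
            · subst h3; omega
            · have h4 : v ≠ u := fun e => hdA (e ▸ hv)
              have h5 := key v
              rw [if_neg (by push Not; exact ⟨h3, h4⟩)] at h5
              have := hA v hv h3
              omega
          · intro v
            by_cases h3 : v = a
            · subst h3; omega
            · by_cases h4 : v = u
              · subst h4; omega
              · have h5 := key v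
                rw [if_neg (by push Not; exact ⟨h3, h4⟩)] at h5
                have := hdeg v h3 h4
                omega
        · have kd := key d
          rw [if_neg (by push Not; exact ⟨Ne.symm had, Ne.symm hud⟩)] at kd
          refine ih (insert s(a, u) F) u ?_ hF' he₀' hub hud (by omega) (by omega) ?_ ?_ ?_ ?_ ?_
          · have h3 : symmDiff (insert s(a, u) F) F₂ ⊂ symmDiff F F₂ := by
              rw [ssubset_iff_of_subset]
              · refine ⟨s(a, u), ?_, ?_⟩
                · rw [mem_symmDiff]; exact Or.inr ⟨hu2, hu⟩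
                · rw [mem_symmDiff]; rintro (h | h)
                  · exact h.2 hu2
                  · exact h.2 (mem_insert_self _ _)
              · intro e he
                rw [mem_symmDiff] at he ⊢
                rcases he with he | he
                · rcases mem_insert.1 he.1 with h4 | h4
                  · exact absurd (h4 ▸ hu2) he.2
                  · exact Or.inl ⟨h4, he.2⟩
                · exact Or.inr ⟨he.1, fun h4 => he.2 (mem_insert_of_mem h4)⟩
            have := card_lt_card h3
            omega
          · have := hdeg u (Ne.symm hau) hud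
            omega
          · intro v hv1 hv2
            by_cases h3 : v = a
            · subst h3; omega
            · have h5 := key v
              rw [if_neg (by push Not; exact ⟨h3, hv1⟩)] at h5
              have := hdeg v h3 hv2
              omega
          · intro v hv hv1
            by_cases h3 : v = a
            · subst h3; omega
            · have h5 := key v
              rw [if_neg (by push Not; exact ⟨h3, hv1⟩)] at h5
              have := hA v hv h3
              omega
          · intro h3
            exact tri (notMem_of_dg (by omega))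
          · intro h3
            by_cases h4 : s(u, z) ∈ F
            · have h5 : s(a, z) ∈ F₂ := by
                rcases huz with h5 | h5
                · exact h5
                · exact absurd h4 h5
              refine ⟨z, mem_insert_of_mem h4, hzz h5, ?_⟩
              have h6 : (insert s(a, u) F).erase s(u, z) = insert s(a, u) (F.erase s(u, z)) := by
                rw [erase_insert_of_ne]
                intro e
                rw [Sym2.eq_iff] at e
                rcases e with e | e
                · exact hau e.1
                · exact haz e.1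
              rw [h6]
              by_contra h7
              obtain ⟨t, h8, h9⟩ := tri_case (htF.erase _)
                (fun x hx => hl x (insert_subset_insert _ (erase_subset _ _) hx)) h7
              rw [hzuniq t (mem_of_mem_erase h8)] at h9
              exact notMem_erase _ _ h9
            · obtain ⟨y, h5, h6⟩ := exists_edge (F := insert s(a, u) F) (F' := F₂) (a := u)
                (by have := hdeg2 u; omega)
              exact ⟨y, h5, h6, (tri h4).erase _⟩
    · obtain ⟨u, h3, h4, h5⟩ := ht3 ha
      exact rem u h3 h4 h5 (fun h => by omega)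

/-- Adding a path whose inner vertices have degree `0`. -/
theorem addPath4 {E : Finset (Sym2 V)} (hE : ∀ e ∈ E, ¬ e.IsDiag) {d : V} :
    ∀ {x : V} (p : (SimpleGraph.fromEdgeSet (E : Set (Sym2 V))).Walk x d), p.IsPath →
      ∀ F : Finset (Sym2 V), F ⊆ E → x ≠ d → s(x, d) ∉ F → dg F x = 1 → dg F d = 1 → NoTri F →
      (p.length = 1 → ∀ t, s(x, t) ∈ F → s(t, d) ∉ F) →
      (∀ v, v ≠ x → v ≠ d → dg F v = 0 ∨ dg F v = 2) →
      (∀ r ∈ p.support, r ≠ x → r ≠ d → dg F r = 0) →
      ∃ F' ⊆ E, (∀ v, dg F' v = 0 ∨ dg F' v = 2) ∧ NoTri F' ∧ dg F' x = 2 ∧ dg F' d = 2 ∧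
        ∀ v, dg F v = 2 → dg F' v = 2 := by
  intro x p
  induction p with
  | nil => intro _ F _ h; exact absurd rfl h
  | @cons x y d h q ih =>
    intro hp F hF hxd hne hx hd htF hc hdeg hin
    rw [SimpleGraph.fromEdgeSet_adj] at h
    obtain ⟨hxy, hxy'⟩ := h
    have hxyE : s(x, y) ∈ E := by exact_mod_cast hxy
    rw [SimpleGraph.Walk.cons_isPath_iff] at hp
    have hl : ∀ w, s(w, w) ∉ insert s(x, y) F := by
      intro w hw
      exact hE _ (insert_subset hxyE hF hw) (by simp)
    by_cases hyd : y = d
    · subst hyd
      have hq : q.length = 0 := by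
        have h1 := hp.1
        rw [SimpleGraph.Walk.isPath_iff_eq_nil] at h1
        rw [h1]
        rfl
      have key := dg_insert hne
      refine ⟨insert s(x, y) F, insert_subset hxyE hF, ?_, ?_, ?_, ?_, ?_⟩
      · intro v
        rw [key v]
        by_cases h1 : v = x
        · subst h1; simp [hx]
        · by_cases h2 : v = y
          · subst h2; simp [hd]
          · simpa [h1, h2] using hdeg v h1 h2
      · by_contra h1
        obtain ⟨t, h2, h3⟩ := tri_case htF hl h1
        exact hc (by rw [SimpleGraph.Walk.length_cons, hq]) t h2 (swap_mem h3)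
      · rw [key x]; simp [hx]
      · rw [key y]; simp [hd]
      · intro v hv
        rw [key v]
        have h1 : v ≠ x := fun e => by subst e; omega
        have h2 : v ≠ y := fun e => by subst e; omega
        simpa [h1, h2] using hv
    · have hy0 : dg F y = 0 := hin y (by simp) (Ne.symm hxy') hyd
      have hnF : s(x, y) ∉ F := fun h' => by
        have := dg_pos' h'
        omega
      have key := dg_insert hnF
      obtain ⟨F', hF', h1, h1t, h2, h3, h4⟩ := ih hp.1 (insert s(x, y) F)
        (insert_subset hxyE hF) hyd
        (by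
          intro h'
          rcases mem_insert.1 h' with h' | h'
          · rw [Sym2.eq_iff] at h'
            rcases h' with h' | h'
            · exact hxy' h'.1.symm
            · exact hxd h'.2.symm
          · have := dg_pos h'
            omega)
        (by rw [key y]; simp [hy0])
        (by
          rw [key d]
          have h1 : d ≠ x := Ne.symm hxd
          have h2 : d ≠ y := Ne.symm hyd
          simpa [h1, h2] using hd)
        (by
          by_contra h1
          obtain ⟨t, h2, h3⟩ := tri_case htF hl h1
          exact notMem_of_dg hy0 h3)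
        (by
          intro _ t h1 h2
          have h3 : t = x := by
            rcases mem_insert.1 h1 with h1 | h1
            · rw [Sym2.eq_iff] at h1
              rcases h1 with h1 | h1
              · exact absurd h1.1.symm hxy'
              · exact h1.2
            · exact absurd h1 (notMem_of_dg hy0)
          subst h3
          rcases mem_insert.1 h2 with h2 | h2
          · rw [Sym2.eq_iff] at h2
            rcases h2 with h2 | h2
            · exact hyd h2.2.symm
            · exact hxy' h2.1
          · exact hne h2)
        (by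
          intro v hv1 hv2
          rw [key v]
          by_cases h1 : v = x
          · subst h1; simp [hx]
          · simpa [h1, hv1] using hdeg v h1 hv2)
        (by
          intro r hr hr1 hr2
          have h1 : r ≠ x := fun e => hp.2 (e ▸ hr)
          rw [key r]
          have := hin r (by simp [hr]) h1 hr2
          simpa [h1, hr1] using this)
      refine ⟨F', hF', h1, h1t, h4 x (by rw [key x]; simp [hx]), h3, fun v hv => h4 v ?_⟩
      rw [key v]
      have h5 : v ≠ x := fun e => by subst e; omega
      have h6 : v ≠ y := fun e => by subst e; omega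
      simpa [h5, h6] using hv

end H8F
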