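import Pool.Agent.Lib.H8F.Def

/-!
# H8F, file Walk: the walk lemma
-/

set_option autoImplicit false
set_option linter.unusedSectionVars false

namespace H8F

open Finset H98P H98Z H98M H63F H30F

variable {V : Type*} [Fintype V] [DecidableEq V]

/-- WALK LEMMA. `F2` has all degrees 0 or 2, degree 2 on `A`, degree 2 at `d` and 0 at `b`. The state `X` (at the vertex
`x`): edges without loops, `dg X d = 1` and all edges of `X` at `d` are in `F2`, `dg X b = 2`, `dg X x` is 1 or 3,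
all other degrees are 0 or 2 and 2 on `A`. Proof: induction on the number `k` of edges in exactly one of `X`, `F2`: see
PROOF.md (toggle an edge of `X` sd `F2` at `x`). -/
theorem walk {F2 : Finset (Sym2 V)} (hl2 : F2 ⊆ LW univ) {A : Finset V} {b d : V} (hbd : b ≠ d)
    (h2 : ∀ v, dg F2 v = 0 ∨ dg F2 v = 2) (h2A : ∀ v ∈ A, dg F2 v = 2) (h2d : dg F2 d = 2) (h2b : dg F2 b = 0)
    (k : ℕ) : ∀ (X : Finset (Sym2 V)) (x : V), X ⊆ LW univ → (symmDiff X F2).card ≤ k →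
      (∀ e ∈ X, d ∈ e → e ∈ F2) → dg X d = 1 → dg X b = 2 → x ≠ b → x ≠ d → (dg X x = 1 ∨ dg X x = 3) →
      (∀ v, v ≠ x → v ≠ d → dg X v = 0 ∨ dg X v = 2) → (∀ v ∈ A, v ≠ x → v ≠ d → dg X v = 2) →
      ∃ Y ⊆ X ∪ F2, (∀ v, v ≠ b → v ≠ d → dg Y v = 0 ∨ dg Y v = 2) ∧ (∀ v ∈ A, v ≠ b → v ≠ d → dg Y v = 2) ∧
        ((dg Y b = 2 ∧ dg Y d = 2) ∨ (dg Y b = 1 ∧ dg Y d = 1)) := by
  sorry

end H8F
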